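import Mathlib

namespace Pool.Agent.Results.MP_c8004b_pr.ThreeSizesWin

open Finset

/-- `e` is a population of `N` items with error sizes in `[0,1]` and mean error `m`. -/
def IsPopulation (m : ℝ) (N : ℕ) (e : Fin N → ℝ) : Prop :=
  1 ≤ N ∧ (∀ i, 0 ≤ e i ∧ e i ≤ 1) ∧ (∑ i, e i) / N = m

open scoped Classical in
/-- `F_e(c) = P(S ≤ c)`, `S` the sum of `n` draws with replacement. -/
noncomputable def F (n : ℕ) (c : ℝ) (N : ℕ) (e : Fin N → ℝ) : ℝ :=
  ((univ.filter fun i : Fin n → Fin N => ∑ k, e (i k) ≤ c).card : ℝ) / (N : ℝ) ^ n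

/-- Exactly two error sizes, one of them `0` or `1`. -/
def TwoSizes (N : ℕ) (e : Fin N → ℝ) : Prop :=
  (Set.range e).ncard = 2 ∧ (0 ∈ Set.range e ∨ 1 ∈ Set.range e)

open scoped Classical in
/-- If every good pair has both entries in `A`, then `F ≤ (|A|/N)²`. -/
lemma F_le (c : ℝ) (N : ℕ) (hN : 1 ≤ N) (e : Fin N → ℝ) (A : Finset (Fin N))
    (h : ∀ i j, e i + e j ≤ c → i ∈ A ∧ j ∈ A) : F 2 c N e ≤ ((A.card : ℝ) / N) ^ 2 := by
  unfold F
  rw [div_pow]
  refine div_le_div_of_nonneg_right ?_ (by positivity)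
  have h1 : (univ.filter fun i : Fin 2 → Fin N => ∑ k, e (i k) ≤ c) ⊆
      Fintype.piFinset (fun _ : Fin 2 => A) := by
    intro i hi
    rw [mem_filter, Fin.sum_univ_two] at hi
    have h2 := h _ _ hi.2
    rw [Fintype.mem_piFinset]
    intro k
    fin_cases k
    · exact h2.1
    · exact h2.2
  have h3 := card_le_card h1
  rw [Fintype.card_piFinset] at h3
  simp only [prod_const, card_univ, Fintype.card_fin] at h3
  exact_mod_cast h3

lemma two_sizes_bound (N : ℕ) (e : Fin N → ℝ) (he : IsPopulation (9 / 10) N e)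
    (h2 : TwoSizes N e) : F 2 (9 / 10) N e ≤ 4 / 121 := by
  classical
  obtain ⟨hN, h01, hmean⟩ := he
  have hN0 : (0 : ℝ) < N := by exact_mod_cast hN
  have hsum : ∑ i, e i = 9 / 10 * N := by
    rw [div_eq_iff hN0.ne'] at hmean; exact hmean
  obtain ⟨hcard, hor⟩ := h2
  obtain ⟨x, y, hxy, hr⟩ := Set.ncard_eq_two.1 hcard
  -- general statement: sizes `u ≠ v`
  have key : ∀ u v : ℝ, u ≠ v → Set.range e = {u, v} → (u = 0 ∨ u = 1) →
      F 2 (9 / 10) N e ≤ 4 / 121 := by
    intro u v huv hr hu
    have hval : ∀ i, e i = u ∨ e i = v := by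
      intro i
      have : e i ∈ Set.range e := Set.mem_range_self i
      rw [hr] at this
      simpa using this
    obtain ⟨iu, hiu⟩ : u ∈ Set.range e := by rw [hr]; simp
    obtain ⟨iv, hiv⟩ : v ∈ Set.range e := by rw [hr]; simp
    have hv01 : 0 ≤ v ∧ v ≤ 1 := by rw [← hiv]; exact h01 iv
    set A := univ.filter fun i => e i = u with hA
    set B := univ.filter fun i => e i = v with hB
    have hAB : (A.card : ℝ) + B.card = N := by
      have h1 : A.card + B.card = (univ : Finset (Fin N)).card := by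
        rw [← card_union_of_disjoint]
        · congr 1
          ext i
          simp only [hA, hB, mem_union, mem_filter, mem_univ, true_and, iff_true]
          exact hval i
        · rw [disjoint_filter]
          intro i _ h3 h4
          exact huv (h3.symm.trans h4)
      rw [card_univ, Fintype.card_fin] at h1
      exact_mod_cast h1
    have hsum2 : u * A.card + v * B.card = 9 / 10 * N := by
      rw [← hsum]
      have h1 : ∑ i, e i = ∑ i, ((if e i = u then u else 0) + (if e i = v then v else 0)) := by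
        refine sum_congr rfl fun i _ => ?_
        rcases hval i with h3 | h3
        · rw [if_pos h3, if_neg (by rw [h3]; exact huv), h3, add_zero]
        · rw [if_neg (by rw [h3]; exact huv.symm), if_pos h3, h3, zero_add]
      rw [h1, sum_add_distrib, ← sum_filter, ← sum_filter, sum_const, sum_const, nsmul_eq_mul,
        nsmul_eq_mul]
      ring
    have hApos : (1 : ℝ) ≤ A.card := by
      have : 0 < A.card := card_pos.2 ⟨iu, by simp [hA, hiu]⟩
      exact_mod_cast this
    have hBpos : (1 : ℝ) ≤ B.card := by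
      have : 0 < B.card := card_pos.2 ⟨iv, by simp [hB, hiv]⟩
      exact_mod_cast this
    rcases hu with rfl | rfl
    · -- sizes `0` and `v`
      have hv : 9 / 10 < v := by
        by_contra hcon
        push Not at hcon
        nlinarith
      have h3 := F_le (9 / 10) N hN e A (fun i j hij => by
        rcases hval i with h4 | h4 <;> rcases hval j with h5 | h5 <;> rw [h4, h5] at hij
        · exact ⟨by simp [hA, h4], by simp [hA, h5]⟩
        · linarith
        · linarith
        · linarith)
      refine h3.trans ?_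
      have h6 : (A.card : ℝ) / N ≤ 1 / 10 := by
        rw [div_le_iff₀ hN0]
        nlinarith [hv01.2]
      have h7 : 0 ≤ (A.card : ℝ) / N := by positivity
      nlinarith
    · -- sizes `1` and `v`
      have h3 := F_le (9 / 10) N hN e (if v ≤ 9 / 20 then B else ∅) (fun i j hij => by
        rcases hval i with h4 | h4 <;> rcases hval j with h5 | h5 <;> rw [h4, h5] at hij
        · linarith
        · linarith [hv01.1]
        · linarith [hv01.1]
        · rw [if_pos (by linarith)]
          exact ⟨by simp [hB, h4], by simp [hB, h5]⟩)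
      refine h3.trans ?_
      split_ifs with hv
      · have h6 : (B.card : ℝ) / N ≤ 2 / 11 := by
          rw [div_le_iff₀ hN0]
          nlinarith
        have h7 : 0 ≤ (B.card : ℝ) / N := by positivity
        nlinarith
      · norm_num
  rcases hor with h | h
  · rw [hr] at h
    rcases h with h | h
    · exact key x y hxy hr (Or.inl h.symm)
    · exact key y x hxy.symm (by rw [hr, Set.pair_comm]) (Or.inl h.symm)
  · rw [hr] at h
    rcases h with h | h
    · exact key x y hxy hr (Or.inr h.symm)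
    · exact key y x hxy.symm (by rw [hr, Set.pair_comm]) (Or.inr h.symm)

/-- One item of size `0`, nine of size `9/10`, nine of size `1`. -/
noncomputable def e3 (i : Fin 19) : ℝ := if (i : ℕ) = 0 then 0 else if (i : ℕ) < 10 then 9 / 10 else 1

lemma e3_pop : IsPopulation (9 / 10) 19 e3 := by
  refine ⟨by norm_num, fun i => ?_, ?_⟩
  · unfold e3
    split_ifs <;> norm_num
  · simp only [e3, Fin.sum_univ_succ, Fin.sum_univ_zero, Fin.val_succ, Fin.val_zero]
    norm_num

def g (k : Fin 19) : Fin 2 → Fin 19 := if (k : ℕ) < 10 then ![0, k] else ![k - 9, 0]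

lemma e3_F : 1 / 19 ≤ F 2 (9 / 10) 19 e3 := by
  classical
  unfold F
  have hinj : Function.Injective g := by decide
  have hmem : ∀ k : Fin 19, ((g k 0 : ℕ) = 0 ∧ (g k 1 : ℕ) < 10) ∨
      ((g k 1 : ℕ) = 0 ∧ (g k 0 : ℕ) < 10) := by decide
  have h1 : univ.image g ⊆ univ.filter fun i : Fin 2 → Fin 19 => ∑ k, e3 (i k) ≤ 9 / 10 := by
    intro i hi
    rw [mem_image] at hi
    obtain ⟨k, _, rfl⟩ := hi
    rw [mem_filter, Fin.sum_univ_two]
    refine ⟨mem_univ _, ?_⟩
    rcases hmem k with ⟨h2, h3⟩ | ⟨h2, h3⟩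
    · unfold e3
      rw [if_pos h2]
      split_ifs <;> norm_num
    · unfold e3
      rw [if_pos h2]
      split_ifs <;> norm_num
  have h2 := card_le_card h1
  rw [card_image_of_injective _ hinj, card_univ, Fintype.card_fin] at h2
  have h3 : (19 : ℝ) ≤ (univ.filter fun i : Fin 2 → Fin 19 => ∑ k, e3 (i k) ≤ 9 / 10).card := by
    exact_mod_cast h2
  rw [le_div_iff₀ (by norm_num)]
  calc (1 / 19 : ℝ) * ((19 : ℕ) : ℝ) ^ 2 = 19 := by norm_num
    _ ≤ _ := h3

/-- For `n = 2`, `m = c = 9/10` a population with three error sizes beats every population with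
exactly two error sizes one of which is `0` or `1`, by a fixed margin. -/
theorem result :
    (∃ (N : ℕ) (e : Fin N → ℝ), IsPopulation (9 / 10) N e ∧ 1 / 19 ≤ F 2 (9 / 10) N e) ∧
    (∀ (N : ℕ) (e : Fin N → ℝ), IsPopulation (9 / 10) N e → TwoSizes N e →
      F 2 (9 / 10) N e ≤ 4 / 121) ∧
    ¬ ∀ (n : ℕ) (m c : ℝ), 1 ≤ n → 0 < m → m < 1 → c < n * m →
      ∃ (N : ℕ) (e : Fin N → ℝ), IsPopulation m N e ∧ TwoSizes N e ∧
        ∀ (N' : ℕ) (e' : Fin N' → ℝ), IsPopulation m N' e' → F n c N' e' ≤ F n c N e := by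
  refine ⟨⟨19, e3, e3_pop, e3_F⟩, two_sizes_bound, fun h => ?_⟩
  obtain ⟨N, e, h1, h2, h3⟩ := h 2 (9 / 10) (9 / 10) (by norm_num) (by norm_num) (by norm_num)
    (by norm_num)
  have h4 := h3 19 e3 e3_pop
  have h5 := e3_F
  have h6 := two_sizes_bound N e h1 h2
  linarith

end Pool.Agent.Results.MP_c8004b_pr.ThreeSizesWin
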